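import Pool.Agent.Y789.OP.Prod

set_option autoImplicit false

/-!
De Medts and Tarnauceanu ask whether the sum of o(x) / phi(o(x)) over a group of order n is at
most the sum over the cyclic group of order n. We prove a stronger domination property (for every
set of primes) for all solvable groups and show that the property is preserved by extensions with
solvable kernel, by direct products and by a covering rule.
-/

namespace Pool.Agent.Results.MP_9abc65_al.DominatedGroups

open Finset

/-- `G` is dominated if, for every finite set `T` of primes, at most as many elements of `G` as of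
a cyclic group of the same order have order divisible by all primes of `T`. -/
def Dominated (G : Type) [Group G] : Prop :=
  ∀ (C : Type) [Group C] [Finite C] [IsCyclic C], Nat.card C = Nat.card G →
    ∀ T : Finset ℕ, (∀ q ∈ T, q.Prime) →
      Nat.card {x : G // ∀ q ∈ T, q ∣ orderOf x} ≤ Nat.card {y : C // ∀ q ∈ T, q ∣ orderOf y}

lemma dominated_iff (G : Type) [Group G] [Finite G] : Dominated G ↔ Pool.Y789.OP.Prop1 G := by
  constructor
  · intro h
    haveI : NeZero (Nat.card G) := ⟨Nat.card_pos.ne'⟩
    have hc : Nat.card (Multiplicative (ZMod (Nat.card G))) = Nat.card G := by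
      rw [Nat.card_eq_fintype_card, Fintype.card_multiplicative, ZMod.card]
    exact Pool.Y789.OP.prop1_of_AT_le hc (fun T hT => h _ hc T hT)
  · intro h C _ _ _ hc T hT
    exact Pool.Y789.OP.AT_le_cyclic hc h T hT

theorem result :
    -- a dominated group satisfies the inequality, for all exponents `s ≥ 0`
    (∀ (G : Type) [Group G] [Fintype G], Dominated G →
      ∀ (C : Type) [Group C] [Fintype C] [IsCyclic C], Fintype.card C = Fintype.card G →
        ∀ s : ℝ, 0 ≤ s →
          ∑ x : G, ((orderOf x : ℝ) / (Nat.totient (orderOf x) : ℝ)) ^ s ≤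
            ∑ y : C, ((orderOf y : ℝ) / (Nat.totient (orderOf y) : ℝ)) ^ s) ∧
    -- solvable groups are dominated
    (∀ (G : Type) [Group G] [Finite G], Group.IsSolvable G → Dominated G) ∧
    -- extensions with solvable kernel
    (∀ (G : Type) [Group G] [Finite G] (N : Subgroup G) [N.Normal], Group.IsSolvable N →
      Dominated (G ⧸ N) → Dominated G) ∧
    -- direct products
    (∀ (G H : Type) [Group G] [Finite G] [Group H] [Finite H],
      Dominated G → Dominated H → Dominated (G × H)) ∧
    -- coverings of the elements whose order is divisible by several primes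
    (∀ (G : Type) [Group G] [Finite G],
      (∀ T : Finset ℕ, (∀ q ∈ T, q.Prime) → 2 ≤ #T →
        ∃ (k : ℕ) (A : Fin k → Subgroup G), (∀ i, Dominated (A i)) ∧
          ∑ i, (Nat.card (A i) : ℝ) / (Nat.card (Subgroup.normalizer (A i : Set G)) : ℝ) ≤ 1 ∧
          ∀ x : G, (∀ q ∈ T, q ∣ orderOf x) → ∃ (i : Fin k) (g : G), g * x * g⁻¹ ∈ A i) →
      Dominated G) := by
  refine ⟨?_, ?_, ?_, ?_, ?_⟩
  · intro G _ _ hG C _ _ _ hc s hs
    rw [dominated_iff] at hG
    have hc' : Nat.card C = Nat.card G := by
      rw [Nat.card_eq_fintype_card, Nat.card_eq_fintype_card, hc]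
    have hw : ∀ q : ℕ, 0 ≤ (if q.Prime then ((q : ℝ) / ((q : ℝ) - 1)) ^ s - 1 else 0) := by
      intro q
      split_ifs with hq
      · rcases hs.eq_or_lt with h | h
        · rw [← h, Real.rpow_zero, sub_self]
        · exact (Pool.Y789.OP.weight_pos h hq).le
      · exact le_refl _
    have h1 := Pool.Y789.OP.sum_le hc' hG _ hw
    have h2 : ∀ n : ℕ, n ≠ 0 → ((n : ℝ) / (Nat.totient n : ℝ)) ^ s =
        ∏ q ∈ n.primeFactors,
          (1 + (if q.Prime then ((q : ℝ) / ((q : ℝ) - 1)) ^ s - 1 else 0)) := by
      intro n hn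
      rw [Pool.Y789.OP.ratio_rpow n hn s]
      apply Finset.prod_congr rfl
      intro q hq
      rw [if_pos (Nat.prime_of_mem_primeFactors hq)]
    rw [Finset.sum_congr rfl (fun (x : G) _ => h2 (orderOf x) (orderOf_pos x).ne'),
      Finset.sum_congr rfl (fun (x : C) _ => h2 (orderOf x) (orderOf_pos x).ne')]
    exact h1
  · intro G _ _ h
    rw [dominated_iff]
    exact Pool.Y789.OP.prop1_of_solvable G h
  · intro G _ _ N _ hN h
    rw [dominated_iff] at h ⊢
    exact Pool.Y789.OP.lift_solvable _ G N rfl hN h
  · intro G H _ _ _ _ hG hH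
    rw [dominated_iff] at hG hH ⊢
    exact Pool.Y789.OP.prop1_prod hG hH
  · intro G _ _ h
    rw [dominated_iff]
    intro T hT
    by_cases h2 : 2 ≤ #T
    · obtain ⟨k, A, hA, hsum, hcov⟩ := h T hT h2
      exact Pool.Y789.OP.domT_of_cover T hT A
        (fun i => (dominated_iff (A i)).1 (hA i) T hT) hsum hcov
    · exact Pool.Y789.OP.domT_small T hT (by omega)

end Pool.Agent.Results.MP_9abc65_al.DominatedGroups
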