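import Pool.Agent.Y536.OP.Cls4

set_option autoImplicit false

/-!
# The sum of `o(x) / φ(o(x))` over finite groups whose composition factors have abelian Sylow
# `p`-subgroups for odd `p`

Let `G` be a finite group with normal subgroups `1 = N 0 ≤ N 1 ≤ … ≤ N n = G` such that the Sylow
`p`-subgroups of every factor `N (i + 1) / N i` are abelian, for all odd primes `p`. For instance,
`G` may be solvable, or the order of `G` may not be divisible by the cube of an odd prime; by
refining to a chief series, the condition says that the Sylow `p`-subgroups of all composition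
factors of `G` are abelian, for all odd `p` (there is no condition for `p = 2`). For every real `r`
with `0 < r ≤ 1`, the sum of `(o(x) / φ(o(x))) ^ r` over `G` is at most the same sum over the cyclic
group of the same order. For `r = 1` this is the inequality of De Medts and Tărnăuceanu.

For a set `σ` of primes and numbers `0 ≤ δ_p ≤ 1 / p` the weight `∏ (1 - δ_p)`, over the primes
`p ∈ σ` which do not divide `o(x)`, has average at most `∏ (1 - δ_p / |G|_p)` over `x ∈ G`. If the
elements of order prime to `p` form a subgroup `K`, for some `p ∈ σ` dividing `|G|`, the element `x`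
is split into its `p`-part `u` and its `p'`-part in the centralizer of `u` in `K`, and induction
applies to these centralizers. Otherwise, for all odd `p ∈ σ` dividing `|G|`, the number of the
elements of order prime to `p` is at least `(p + 1) / 2` times the part of `|G|` prime to `p`; for
`p = 2` it is at least the part of `|G|` prime to `2`, by the theorem of Frobenius. Then the
inequality follows from one between the weights of single elements, as
`2 / (p + 1) ≤ ∏_{q < p} (1 - 1 / q)` for odd `p`.

The series is used for the number of elements of order prime to `p`: for a normal subgroup `N` with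
an abelian Sylow `p`-subgroup `P`, the number of elements of order prime to `p` in `G` is
`(|N| / |N_N(P)|) * ∑ 1 / |C_P(x)|`, over the elements `x` of the normalizer of `P` in `G` whose
order modulo `N` is prime to `p`.
-/

namespace Pool.Agent.Results.MP_9abc65_al.OddSylowAbelian

/-- Let the finite group `G` have normal subgroups `1 = N 0 ≤ N 1 ≤ … ≤ N n = G` such that the Sylow
`p`-subgroups of the factors `N (i + 1) / N i` are abelian, for all odd primes `p`, and let `C` be a
cyclic group of the same order. Then `∑ o(x) / φ(o(x))` over `G` is at most `∑ o(x) / φ(o(x))` over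
`C`; the same holds for the sums of the `r`-th powers, `0 < r ≤ 1`. -/
theorem result (G : Type) [Group G] [Fintype G] (n : ℕ) (N : ℕ → Subgroup G)
    [hN : ∀ i, (N i).Normal] (h0 : N 0 = ⊥) (hn : N n = ⊤) (hle : ∀ i, N i ≤ N (i + 1))
    (hab : ∀ i < n, ∀ p : ℕ, p.Prime → p ≠ 2 →
      ∀ P : Sylow p (N (i + 1) ⧸ (N i).subgroupOf (N (i + 1))), ∀ x ∈ P, ∀ y ∈ P, x * y = y * x)
    (C : Type) [Group C] [Fintype C] [IsCyclic C] (hC : Fintype.card C = Fintype.card G) :
    (∑ x : G, ((orderOf x : ℚ) / (Nat.totient (orderOf x) : ℚ)) ≤
      ∑ x : C, ((orderOf x : ℚ) / (Nat.totient (orderOf x) : ℚ))) ∧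
    ∀ r : ℝ, 0 < r → r ≤ 1 →
      ∑ x : G, ((orderOf x : ℝ) / (Nat.totient (orderOf x) : ℝ)) ^ r ≤
        ∑ x : C, ((orderOf x : ℝ) / (Nat.totient (orderOf x) : ℝ)) ^ r := by
  have hcomm : ∀ x y : C, x * y = y * x := by
    let _ : CommGroup C := IsCyclic.commGroup
    exact fun x y => mul_comm x y
  have hc : Nat.card G = Nat.card C := by
    rw [Nat.card_eq_fintype_card, Nat.card_eq_fintype_card, hC]
  have h := fun (r : ℝ) (hr : 0 < r) (hr1 : r ≤ 1) =>
    (Pool.Agent.Y536.OP.final4 G n N hN h0 hn hle hab C hcomm hc r hr hr1).1
  refine ⟨?_, h⟩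
  have h1 := h 1 one_pos le_rfl
  simp only [Real.rpow_one] at h1
  refine (Rat.cast_le (K := ℝ)).1 ?_
  push_cast
  exact h1

end Pool.Agent.Results.MP_9abc65_al.OddSylowAbelian
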